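import Pool.Agent.helper55.FPZ.Spec

/-!
# FPZ, row HOD: the tensors `tp G w` are combinations of elements of `Ho`
-/

set_option autoImplicit false

namespace Pool.Agent.FPZ

open Matrix Polynomial Pool.Agent.PL Pool.Agent.X4

section
variable {N : ℕ}

/-- coefficients of `der Y (tp u x)` -/
def HOD_L {R : Type} [CommRing R] (M : ℕ) (u Y : Matrix (Fin N) (Fin N) R) (J K : Fin M → Fin N) : R :=
  ∑ k : Fin M, ∑ j : Fin N, Y (J k) j * ∏ i, u (Function.update J k j i) (K i)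

theorem HOD_lin {R : Type} [CommRing R] (M : ℕ) (u Y : Matrix (Fin N) (Fin N) R) (x : Tn N M R)
    (J : Fin M → Fin N) : ∑ K, HOD_L M u Y J K * x K = der Y M (tp u M *ᵥ x) J := by
  unfold HOD_L der
  simp only [Matrix.mulVec, dotProduct, tp, Finset.sum_mul, Finset.mul_sum]
  rw [Finset.sum_comm]
  refine Finset.sum_congr rfl fun k _ => ?_
  rw [Finset.sum_comm]
  refine Finset.sum_congr rfl fun j _ => ?_
  refine Finset.sum_congr rfl fun K _ => ?_
  ring

theorem HOD_cast (F : Type) [Field F] [CharZero F] (M : ℕ) (u Y : Matrix (Fin N) (Fin N) ℚ)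
    (J K : Fin M → Fin N) : ((HOD_L M u Y J K : ℚ) : F) = HOD_L M (cst F u) (cst F Y) J K := by
  unfold HOD_L cst
  push_cast
  simp only [Matrix.map_apply]

theorem HOD_cst_mul (F : Type) [Field F] [CharZero F] (u v : Matrix (Fin N) (Fin N) ℚ) :
    cst F (u * v) = cst F u * cst F v := by
  unfold cst
  ext i j
  simp only [Matrix.map_apply, Matrix.mul_apply]
  push_cast
  rfl

end

theorem HOD (hCZ : CZ_stmt) (hGZ : GZ_stmt) (hBC : BC_stmt) (hDC : DC_stmt) (hTP : TP_stmt) (_hDB : DB_stmt) :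
    HOD_stmt := by
  intro F _ _ N E D hcont G hG hdiag m t ht I hI M w hw
  classical
  obtain ⟨hgz1, hgz2, -, -⟩ := hGZ F N E D hcont
  have hGdet := (Matrix.isUnit_iff_isUnit_det _).1 hG
  have hG1 : G⁻¹ * G = 1 := Matrix.nonsing_inv_mul _ hGdet
  have hG2 : G * G⁻¹ = 1 := Matrix.mul_nonsing_inv _ hGdet
  set A := dg D G with hA
  -- conjugates are in CD
  have hconj : ∀ u ∈ Cm D, G⁻¹ * cst F u * G ∈ CD A := by
    intro u hu d hd
    obtain ⟨z, hz, hzd⟩ := hd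
    have h1 : diagonal d = G⁻¹ * (cst F z * G) := by
      rw [hzd, ← Matrix.mul_assoc, hG1, Matrix.one_mul]
    have h2 : cst F u * cst F z = cst F z * cst F u := by
      rw [← HOD_cst_mul, ← HOD_cst_mul, hu z hz]
    rw [h1]
    calc G⁻¹ * cst F u * G * (G⁻¹ * (cst F z * G)) = G⁻¹ * cst F u * (G * G⁻¹) * cst F z * G := by
          simp only [Matrix.mul_assoc]
      _ = G⁻¹ * (cst F u * cst F z) * G := by rw [hG2]; simp only [Matrix.mul_assoc, Matrix.one_mul]
      _ = G⁻¹ * (cst F z * cst F u) * G := by rw [h2]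
      _ = G⁻¹ * cst F z * (G * G⁻¹) * cst F u * G := by rw [hG2]; simp only [Matrix.mul_assoc, Matrix.one_mul]
      _ = G⁻¹ * (cst F z * G) * (G⁻¹ * cst F u * G) := by simp only [Matrix.mul_assoc]
  have hgC : ∀ Y ∈ gD D, Y ∈ Cm D := by
    intro Y hY z hz
    exact hgz1 Y hY z hz.1
  set v : Tn N M F := tp G M *ᵥ w with hv
  have hback : ∀ X : Matrix (Fin N) (Fin N) F, G * (G⁻¹ * X * G) = X * G := by
    intro X
    rw [← Matrix.mul_assoc, ← Matrix.mul_assoc, hG2, Matrix.one_mul]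
  have hback2 : ∀ X : Matrix (Fin N) (Fin N) F, G * (G⁻¹ * X * G) * G⁻¹ = X := by
    intro X
    rw [hback, Matrix.mul_assoc, hG2, Matrix.mul_one]
  have h1 : ∀ u ∈ Cm D, ∃ x : F, tp (cst F u) M *ᵥ v = x • v := by
    intro u hu
    obtain ⟨x, hx⟩ := hw.grp _ (hconj u hu)
    refine ⟨x, ?_⟩
    rw [hv, Matrix.mulVec_mulVec, ← (hTP N M F (cst F u) G).1, ← hback, (hTP N M F G _).1,
      ← Matrix.mulVec_mulVec, hx, Matrix.mulVec_smul]
  have h2 : ∀ Y ∈ gD D, der (cst F Y) M v = 0 := by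
    intro Y hY
    have e1 := hDC N M F G G⁻¹ (G⁻¹ * cst F Y * G) hG2 hG1 w
    rw [hback2] at e1
    rw [hv, ← e1, hw.lie _ (hconj Y (hgC Y hY)), hCZ F N E D hcont G hG hdiag m t ht I hI Y hY, zero_smul,
      Matrix.mulVec_zero]
  have h3 : ∀ u ∈ Cm D, ∀ Y ∈ gD D, der (cst F Y) M (tp (cst F u) M *ᵥ v) = 0 := by
    intro u hu Y hY
    obtain ⟨x, hx⟩ := h1 u hu
    rw [hx]
    funext J
    have e2 := congrFun (h2 Y hY) J
    simp only [der, Pi.zero_apply] at e2
    simp only [der, Pi.smul_apply, smul_eq_mul, Pi.zero_apply]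
    have e3 : ∑ k : Fin M, ∑ j : Fin N, cst F Y (J k) j * (x * v (Function.update J k j)) =
        x * ∑ k : Fin M, ∑ j : Fin N, cst F Y (J k) j * v (Function.update J k j) := by
      simp only [Finset.mul_sum]
      refine Finset.sum_congr rfl fun k _ => Finset.sum_congr rfl fun j _ => ?_
      ring
    rw [e3, e2, mul_zero]
  -- the linear equations
  have hspan := hBC F ({p : Matrix (Fin N) (Fin N) ℚ × Matrix (Fin N) (Fin N) ℚ // p.1 ∈ Cm D ∧ p.2 ∈ gD D} ×
    (Fin M → Fin N)) (Fin M → Fin N) (fun i K => HOD_L M i.1.1.1 i.1.1.2 i.2 K) v (by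
      rintro ⟨⟨⟨u, Y⟩, hu, hY⟩, J⟩
      simp only [HOD_cast]
      rw [HOD_lin]
      exact congrFun (h3 u hu Y hY) J)
  refine Submodule.span_mono ?_ hspan
  rintro _ ⟨y, hy, rfl⟩
  refine ⟨y, ?_, rfl⟩
  intro u hu
  apply hgz2 M
  intro Y hY
  funext J
  have e4 := hy ⟨⟨⟨u, Y⟩, hu, hY⟩, J⟩
  simp only at e4
  rw [HOD_lin] at e4
  exact e4

end Pool.Agent.FPZ
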