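import Pool.Agent.helper55.FPZ.Spec

/-!
# FPZ, row MN1: another embedding
-/

set_option autoImplicit false

namespace Pool.Agent.FPZ

open Matrix Polynomial Pool.Agent.PL Pool.Agent.X4

theorem MN1_der_zero {N : ℕ} {F : Type} [Field F] (m : ℕ) (X : Matrix (Fin N) (Fin N) F) :
    der X m (0 : Tn N m F) = 0 := by
  funext I
  simp [der]

/-- a matrix which kills a set of tensors kills its span -/
theorem MN1_span (hDL : DL_stmt) {N : ℕ} {F : Type} [Field F] (m : ℕ) (X : Matrix (Fin N) (Fin N) F)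
    (S : Set (Tn N m F)) (h : ∀ s ∈ S, der X m s = 0) {t : Tn N m F} (ht : t ∈ Submodule.span F S) :
    der X m t = 0 := by
  induction ht using Submodule.span_induction with
  | mem x hx => exact h x hx
  | zero => exact MN1_der_zero m X
  | add x y _ _ hx hy => rw [(hDL N m F X 0 x y 0).2.2.1, hx, hy, add_zero]
  | smul c x _ hx => rw [(hDL N m F X 0 0 x c).2.2.2.1, hx, smul_zero]

theorem MN1 (hSS : SS_stmt) (hDG : DG_stmt) (hGZ : GZ_stmt) (hXI : XI_stmt) (hHOD : HOD_stmt) (hKIL : KIL_stmt)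
    (hSPB : SPB_stmt) (hHG : HG_stmt) (hBT : BT_stmt) (hDC : DC_stmt) (hDL : DL_stmt) (hDB : DB_stmt)
    (hTP : TP_stmt) : MN1_stmt := by
  intro F _ _ _ N E D hcont T hT hTk e hAlg hBec m t ht
  obtain ⟨-, -, hcomm, -⟩ := hGZ F N E D hcont
  obtain ⟨G, hG, hdiag⟩ := hDG F N (Zm D) hcomm (hSS F N E D)
  -- basic facts on `P`
  have hue : (D.P e)⁻¹ * D.P e = 1 :=
    Matrix.nonsing_inv_mul _ ((Matrix.isUnit_iff_isUnit_det _).1 (D.isUnit e))
  have hue' : D.P e * (D.P e)⁻¹ = 1 :=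
    Matrix.mul_nonsing_inv _ ((Matrix.isUnit_iff_isUnit_det _).1 (D.isUnit e))
  have hub : (D.P D.base)⁻¹ * D.P D.base = 1 :=
    Matrix.nonsing_inv_mul _ ((Matrix.isUnit_iff_isUnit_det _).1 (D.isUnit D.base))
  have hub' : D.P D.base * (D.P D.base)⁻¹ = 1 :=
    Matrix.mul_nonsing_inv _ ((Matrix.isUnit_iff_isUnit_det _).1 (D.isUnit D.base))
  have htp : ∀ (a b : Matrix (Fin N) (Fin N) F) (n : ℕ) (x : Tn N n F),
      tp a n *ᵥ (tp b n *ᵥ x) = tp (a * b) n *ᵥ x := by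
    intro a b n x
    rw [(hTP N n F a b).1, Matrix.mulVec_mulVec]
  have htp1 : ∀ (n : ℕ) (x : Tn N n F), tp (1 : Matrix (Fin N) (Fin N) F) n *ᵥ x = x := by
    intro n x
    rw [(hTP N n F 1 1).2, Matrix.one_mulVec]
  set c : Matrix (Fin N) (Fin N) F := (D.P e)⁻¹ * D.P D.base with hc
  set c' : Matrix (Fin N) (Fin N) F := (D.P D.base)⁻¹ * D.P e with hc'
  have hcc' : c * c' = 1 := by
    rw [hc, hc', Matrix.mul_assoc, ← Matrix.mul_assoc (D.P D.base), hub', Matrix.one_mul, hue]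
  have hc'c : c' * c = 1 := by
    rw [hc, hc', Matrix.mul_assoc, ← Matrix.mul_assoc (D.P e), hue', Matrix.one_mul, hub]
  -- transport
  have htr0 : ∀ (n : ℕ) (s : Tn N n ℚ), tp ((D.P e)⁻¹) n *ᵥ D.cls e n s = up F s := by
    intro n s
    unfold Datum.cls
    rw [htp, hue, htp1]
    rfl
  have htr1 : ∀ (n : ℕ) (s : Tn N n ℚ), tp ((D.P e)⁻¹) n *ᵥ D.cls D.base n s = tp c n *ᵥ up F s := by
    intro n s
    unfold Datum.cls
    rw [htp]
    rfl
  have htr : ∀ (n : ℕ) (s t' : Tn N n ℚ), D.cls e n s = D.cls D.base n t' →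
      up F s = tp c n *ᵥ up F t' := by
    intro n s t' h
    rw [← htr0, ← htr1, h]
  have hconjkill : ∀ (X : Matrix (Fin N) (Fin N) F) (n : ℕ) (x : Tn N n F),
      der X n (tp c n *ᵥ x) = tp c n *ᵥ der (c' * X * c) n x := by
    intro X n x
    have hconj : c * (c' * X * c) * c' = X := by
      rw [Matrix.mul_assoc, Matrix.mul_assoc (c' * X), hcc', Matrix.mul_one,
        ← Matrix.mul_assoc, hcc', Matrix.one_mul]
    have h5 := hDC N n F c c' (c' * X * c) hcc' hc'c x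
    rw [hconj] at h5
    exact h5.symm
  have hconjkill2 : ∀ (X : Matrix (Fin N) (Fin N) F) (n : ℕ) (x : Tn N n F),
      der X n (tp c n *ᵥ x) = 0 → der (c' * X * c) n x = 0 := by
    intro X n x h
    rw [hconjkill] at h
    have h6 : tp c' n *ᵥ (tp c n *ᵥ der (c' * X * c) n x) = 0 := by rw [h, Matrix.mulVec_zero]
    rwa [htp, hc'c, htp1] at h6
  -- the annihilator for the embedding `e`
  set T' : (n : ℕ) → Set (Tn N n ℚ) := fun n => (D.Hodge e n : Set (Tn N n ℚ)) with hT'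
  have hTsub : ∀ n, T' n ⊆ Fix (D.h e) n := fun n s hs => hs
  obtain ⟨hG1, -⟩ := hHG N (D.h e) (hcont e) T' hTsub
  have hX : ∀ X ∈ Kil T', ∀ (n : ℕ), ∀ s ∈ D.Hodge e n, der (cst F X) n (up F s) = 0 := by
    intro X hX n s hs
    rw [← hDB N n F X s, hX n s hs]
    funext I
    simp [up]
  have hkey : ∀ X ∈ Kil T', der (cst F X) m (tp c m *ᵥ up F t) = 0 := by
    intro X hXK
    obtain ⟨B, hB, C, hC, hBC⟩ := hSPB F N E D T hTk (c' * cst F X * c) (by
      intro n s hs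
      apply hconjkill2
      obtain ⟨s', hs', hcl⟩ := hBec n s hs
      rw [← htr n s' s hcl]
      exact hX X hXK n s' hs')
    have hHo : ∀ (M : ℕ), ∀ w0 ∈ Ho D M, der (c' * cst F X * c) M (up F w0) = 0 := by
      intro M w0 hw0
      apply hconjkill2
      have h1 := hAlg M w0 hw0
      have h2 := Submodule.mem_map_of_mem (f := Matrix.mulVecLin (tp ((D.P e)⁻¹) M)) h1
      rw [Submodule.map_span, Matrix.mulVecLin_apply, htr1] at h2
      refine MN1_span hDL M (cst F X) _ ?_ h2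
      rintro _ ⟨_, ⟨s, hs, rfl⟩, rfl⟩
      rw [Matrix.mulVecLin_apply, htr0]
      exact hX X hXK M s hs
    have hK := hKIL F N E D hcont G hG hdiag m t ht B hB C hC (by
      intro I hI
      obtain ⟨M, w, hw⟩ := hXI F N (dg D G) m I
      refine ⟨M, w, hw, ?_⟩
      rw [← hBC]
      refine MN1_span hDL M (c' * cst F X * c) _ ?_ (hHOD F N E D hcont G hG hdiag m t ht I hI M w hw)
      rintro _ ⟨w0, hw0, rfl⟩
      exact hHo M w0 hw0)
    rw [← hBC] at hK
    rw [hconjkill, hK, Matrix.mulVec_zero]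
  have hspan := hBT F N m (Kil T') (tp c m *ᵥ up F t) hkey
  have h9 : Matrix.mulVecLin (tp (D.P e) m) (tp c m *ᵥ up F t) = D.cls D.base m t := by
    rw [Matrix.mulVecLin_apply, htp, hc, ← Matrix.mul_assoc, hue', Matrix.one_mul]
    rfl
  rw [← h9]
  have h10 := Submodule.mem_map_of_mem (f := Matrix.mulVecLin (tp (D.P e) m)) hspan
  rw [Submodule.map_span] at h10
  refine Submodule.span_mono ?_ h10
  rintro _ ⟨_, ⟨s, hs, rfl⟩, rfl⟩
  exact ⟨s, hG1 m s hs, rfl⟩

end Pool.Agent.FPZ
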