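import Pool.Agent.helper55.FPZ.Spec

/-!
# FPZ, row MN2: the Galois group
-/

set_option autoImplicit false

namespace Pool.Agent.FPZ

open Matrix Polynomial Pool.Agent.PL Pool.Agent.X4

/-- Conjugation of the killing condition. -/
theorem MN2_conj (hDC : DC_stmt) (hTP : TP_stmt) (F : Type) [Field F] [CharZero F] (N : ℕ)
    (P Pi A : Matrix (Fin N) (Fin N) F) (h1 : P * Pi = 1) (h2 : Pi * P = 1) (m : ℕ)
    (t : Tn N m F) :
    der (Pi * A * P) m t = 0 ↔ der A m (tp P m *ᵥ t) = 0 := by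
  have e1 : tp Pi m *ᵥ (tp P m *ᵥ t) = t := by
    rw [Matrix.mulVec_mulVec, ← (hTP N m F Pi P).1, h2, (hTP N m F Pi P).2, Matrix.one_mulVec]
  have e2 := hDC N m F Pi P A h2 h1 (tp P m *ᵥ t)
  rw [e1] at e2
  constructor
  · intro h
    rw [h] at e2
    have e3 : tp P m *ᵥ (tp Pi m *ᵥ der A m (tp P m *ᵥ t)) =
        der A m (tp P m *ᵥ t) := by
      rw [Matrix.mulVec_mulVec, ← (hTP N m F P Pi).1, h1, (hTP N m F P Pi).2,
        Matrix.one_mulVec]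
    rw [← e3, e2, Matrix.mulVec_zero]
  · intro h
    rw [← e2, h, Matrix.mulVec_zero]

/-- finite intersections of open subgroups -/
theorem MN2_finset {Γ : Type} [Group Γ] [TopologicalSpace Γ] {α : Type} (Q : α → Γ → Prop) (S : Finset α)
    (hS : ∀ s ∈ S, ∃ U : Subgroup Γ, IsOpen (U : Set Γ) ∧ ∀ σ ∈ U, Q s σ) :
    ∃ U : Subgroup Γ, IsOpen (U : Set Γ) ∧ ∀ σ ∈ U, ∀ s ∈ S, Q s σ := by
  classical
  induction S using Finset.induction_on with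
  | empty =>
    refine ⟨⊤, ?_, ?_⟩
    · rw [Subgroup.coe_top]
      exact isOpen_univ
    · intro σ _ t ht
      simp at ht
  | insert a S ha ih =>
    obtain ⟨U, hU, hU2⟩ := ih fun t ht => hS t (Finset.mem_insert_of_mem ht)
    obtain ⟨V, hV, hV2⟩ := hS a (Finset.mem_insert_self a S)
    refine ⟨U ⊓ V, ?_, ?_⟩
    · rw [Subgroup.coe_inf]
      exact hU.inter hV
    · intro σ hσ t ht
      obtain ⟨hσU, hσV⟩ := Subgroup.mem_inf.mp hσ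
      rcases Finset.mem_insert.mp ht with rfl | ht
      · exact hV2 σ hσV
      · exact hU2 σ hσU t ht

theorem MN2 (hSS : SS_stmt) (hDG : DG_stmt) (hGZ : GZ_stmt) (hKIL : KIL_stmt) (hSPB : SPB_stmt) (hFT : FT_stmt)
    (hOM : OM_stmt) (hLG : LG_stmt) (hNB : NB_stmt) (hDC : DC_stmt) (_hDL : DL_stmt) (_hDB : DB_stmt)
    (hTP : TP_stmt) : MN2_stmt := by
  intro F _ _ _ _ l hl hlF N E D hcont T hT hTk Γ _ _ _ _ ga frob hAlg hopen
  classical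
  obtain ⟨-, -, hcomm, -⟩ := hGZ F N E D hcont
  obtain ⟨G, hG, hdiag⟩ := hDG F N (Zm D) hcomm (hSS F N E D)
  obtain ⟨S, hS1, hS2⟩ := hFT N T
  obtain ⟨US, hUS, hUS'⟩ := MN2_finset (Γ := Γ)
    (fun (s : Σ m : ℕ, Tn N m ℚ) (σ : Γ) => tp (ga.R σ) s.1 *ᵥ D.cls D.base s.1 s.2 = D.cls D.base s.1 s.2) S
    (fun s hs => hopen s.1 s.2 (hS1 s hs))
  have hl0 : 0 < ‖(l : F)‖ := by
    rw [norm_pos_iff]
    exact Nat.cast_ne_zero.mpr hl.ne_zero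
  have hc0 : 0 < ‖(l : F)‖ ^ 2 := by positivity
  have hc1 : ‖(l : F)‖ ^ 2 < 1 := pow_lt_one₀ hl0.le hlF (by norm_num)
  obtain ⟨U0, hU0, hU0'⟩ := hNB F N Γ ga.R ga.cont (‖(l : F)‖ ^ 2) hc0 hc1
  obtain ⟨Pi, hPPi⟩ : ∃ Pi, D.P D.base * Pi = 1 := (D.isUnit D.base).exists_right_inv
  have hPiP : Pi * D.P D.base = 1 := mul_eq_one_comm.mp hPPi
  refine ⟨U0 ⊓ US, ?_, ?_⟩
  · rw [Subgroup.coe_inf]
    exact hU0.inter hUS
  intro σ hσ m t ht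
  obtain ⟨hσ0, hσS⟩ := Subgroup.mem_inf.mp hσ
  have hOM' : ∀ I : Fin m → Fin N, (tp G⁻¹ m *ᵥ up F t) I ≠ 0 →
      ∃ x : (Σ M : ℕ, Tn N M F), Eig (dg D G) x.1 x.2 (ch (dg D G) m I) ∧
        tp (ga.R σ) x.1 *ᵥ (tp (D.P D.base) x.1 *ᵥ (tp G x.1 *ᵥ x.2)) =
          tp (D.P D.base) x.1 *ᵥ (tp G x.1 *ᵥ x.2) := by
    intro I hI
    obtain ⟨M, w, hw1, hw2⟩ := hOM F l hl hlF N E D hcont Γ ga frob hAlg G hG hdiag m t ht I hI
    exact ⟨⟨M, w⟩, hw1, hw2 σ (fun i j => hU0' σ hσ0 i j)⟩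
  have hOM2 : ∀ I : Fin m → Fin N, ∃ x : (Σ M : ℕ, Tn N M F), (tp G⁻¹ m *ᵥ up F t) I ≠ 0 →
      Eig (dg D G) x.1 x.2 (ch (dg D G) m I) ∧
        tp (ga.R σ) x.1 *ᵥ (tp (D.P D.base) x.1 *ᵥ (tp G x.1 *ᵥ x.2)) =
          tp (D.P D.base) x.1 *ᵥ (tp G x.1 *ᵥ x.2) := by
    intro I
    by_cases hI : (tp G⁻¹ m *ᵥ up F t) I ≠ 0
    · obtain ⟨x, hx⟩ := hOM' I hI
      exact ⟨x, fun _ => hx⟩
    · exact ⟨⟨0, 0⟩, fun h => absurd h hI⟩
  choose x hx using hOM2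
  set J : Finset (Fin m → Fin N) := Finset.univ.filter (fun I => (tp G⁻¹ m *ᵥ up F t) I ≠ 0) with hJ
  have hJm : ∀ I, I ∈ J ↔ (tp G⁻¹ m *ᵥ up F t) I ≠ 0 := by
    intro I
    rw [hJ, Finset.mem_filter]
    simp
  have key : tp (ga.R σ) m *ᵥ D.cls D.base m t = D.cls D.base m t := by
    refine hLG F l hl hlF N
      ((S.image fun s => (⟨s.1, D.cls D.base s.1 s.2⟩ : Σ m : ℕ, Tn N m F)) ∪
        (J.image fun I => (⟨(x I).1, tp (D.P D.base) (x I).1 *ᵥ (tp G (x I).1 *ᵥ (x I).2)⟩ : Σ m : ℕ, Tn N m F))) m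
      (D.cls D.base m t) ?_ (ga.R σ) (fun i j => hU0' σ hσ0 i j) ?_
    · intro A hA
      have hA1 : ∀ s ∈ S, der A s.1 (D.cls D.base s.1 s.2) = 0 := fun s hs =>
        hA ⟨s.1, D.cls D.base s.1 s.2⟩ (Finset.mem_union_left _ (Finset.mem_image_of_mem _ hs))
      have hA2 : ∀ I ∈ J, der A (x I).1 (tp (D.P D.base) (x I).1 *ᵥ (tp G (x I).1 *ᵥ (x I).2)) = 0 := fun I hI =>
        hA ⟨(x I).1, tp (D.P D.base) (x I).1 *ᵥ (tp G (x I).1 *ᵥ (x I).2)⟩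
          (Finset.mem_union_right _ (Finset.mem_image_of_mem _ hI))
      obtain ⟨B, hB, C, hC, hBC⟩ := hSPB F N E D (fun n => {s | (⟨n, s⟩ : Σ m : ℕ, Tn N m ℚ) ∈ S})
        (fun X hX => hTk X (hS2 X fun s hs => hX s.1 s.2 hs)) (Pi * A * D.P D.base) (by
          intro n s hs
          rw [MN2_conj hDC hTP F N (D.P D.base) Pi A hPPi hPiP n]
          exact hA1 ⟨n, s⟩ hs)
      have hK := hKIL F N E D hcont G hG hdiag m t ht B hB C hC (by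
        intro I hI
        refine ⟨(x I).1, (x I).2, (hx I hI).1, ?_⟩
        rw [← hBC, MN2_conj hDC hTP F N (D.P D.base) Pi A hPPi hPiP]
        exact hA2 I ((hJm I).2 hI))
      rw [← hBC, MN2_conj hDC hTP F N (D.P D.base) Pi A hPPi hPiP] at hK
      exact hK
    · intro s hs
      rcases Finset.mem_union.mp hs with hs | hs
      · obtain ⟨y, hy, rfl⟩ := Finset.mem_image.mp hs
        exact hUS' σ hσS y hy
      · obtain ⟨I, hI, rfl⟩ := Finset.mem_image.mp hs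
        exact (hx I ((hJm I).1 hI)).2
  refine ⟨key, ?_, ?_⟩
  · intro z
    rw [ga.tw_h σ]
    exact ht z
  · have e1 : D.cls (ga.tw σ) m t = tp (ga.R σ) m *ᵥ D.cls D.base m t := by
      unfold Datum.cls
      rw [ga.tw_P σ, (hTP N m F (ga.R σ) (D.P D.base)).1, Matrix.mulVec_mulVec]
    rw [e1, key]

end Pool.Agent.FPZ
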